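import Mathlib

namespace Pool.Agent.Results.MP_950c07_nt.AtLeast59

open Finset

/-- numerator of the reciprocal sum over the product of all elements -/
def num (A : Finset ℕ) : ℕ := ∑ a ∈ A, ∏ b ∈ A.erase a, b

lemma recip_eq (A : Finset ℕ) (hA : ∀ a ∈ A, 2 ≤ a) :
    (∑ a ∈ A, (1 / (a : ℚ))) * ((∏ a ∈ A, a : ℕ) : ℚ) = (num A : ℚ) := by
  unfold num
  push_cast
  rw [Finset.sum_mul]
  refine Finset.sum_congr rfl fun a ha => ?_
  rw [← Finset.mul_prod_erase A (fun b => (b : ℚ)) ha]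
  have : (a : ℚ) ≠ 0 := by
    have := hA a ha
    positivity
  field_simp

lemma num_coprime (A : Finset ℕ) (cA : (A : Set ℕ).Pairwise Nat.Coprime) :
    ∀ a ∈ A, Nat.Coprime (num A) a := by
  intro a ha
  unfold num
  rw [← Finset.add_sum_erase A _ ha]
  have h1 : a ∣ ∑ x ∈ A.erase a, ∏ b ∈ A.erase x, b := by
    refine Finset.dvd_sum fun x hx => ?_
    refine Finset.dvd_prod_of_mem (fun b => b) ?_
    rw [Finset.mem_erase] at hx ⊢
    exact ⟨fun h => hx.1 h.symm, ha⟩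
  obtain ⟨c, hc⟩ := h1
  rw [hc, Nat.coprime_add_mul_left_left]
  refine Nat.Coprime.prod_left fun b hb => ?_
  rw [Finset.mem_erase] at hb
  exact cA hb.2 ha hb.1

lemma num_coprime_prod (A : Finset ℕ) (cA : (A : Set ℕ).Pairwise Nat.Coprime) :
    Nat.Coprime (num A) (∏ a ∈ A, a) :=
  Nat.Coprime.prod_right fun a ha => num_coprime A cA a ha

lemma prod_pos' (A : Finset ℕ) (hA : ∀ a ∈ A, 2 ≤ a) : 0 < ∏ a ∈ A, a :=
  Finset.prod_pos fun a ha => by have := hA a ha; omega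

lemma key (P Q : Finset ℕ) (hP : ∀ p ∈ P, 2 ≤ p) (hQ : ∀ q ∈ Q, 2 ≤ q)
    (cP : (P : Set ℕ).Pairwise Nat.Coprime) (cQ : (Q : Set ℕ).Pairwise Nat.Coprime)
    (h : (∑ p ∈ P, (1 / (p : ℚ))) * (∑ q ∈ Q, (1 / (q : ℚ))) = 1) :
    num P = ∏ q ∈ Q, q ∧ num Q = ∏ p ∈ P, p := by
  have e : num P * num Q = (∏ p ∈ P, p) * (∏ q ∈ Q, q) := by
    have h1 := recip_eq P hP
    have h2 := recip_eq Q hQ
    have : ((num P * num Q : ℕ) : ℚ) = (((∏ p ∈ P, p) * (∏ q ∈ Q, q) : ℕ) : ℚ) := by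
      rw [Nat.cast_mul, Nat.cast_mul, ← h1, ← h2]
      calc _ = ((∑ p ∈ P, (1 / (p : ℚ))) * (∑ q ∈ Q, (1 / (q : ℚ)))) *
          (((∏ p ∈ P, p : ℕ) : ℚ) * ((∏ q ∈ Q, q : ℕ) : ℚ)) := by ring
        _ = _ := by rw [h, one_mul]
    exact_mod_cast this
  have d1 : num P ∣ ∏ q ∈ Q, q :=
    (num_coprime_prod P cP).dvd_of_dvd_mul_left (Dvd.intro _ e)
  have d2 : num Q ∣ ∏ p ∈ P, p :=
    (num_coprime_prod Q cQ).dvd_of_dvd_mul_right (Dvd.intro_left _ e)
  have d3 : (∏ q ∈ Q, q) ∣ num P :=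
    (num_coprime_prod Q cQ).symm.dvd_of_dvd_mul_right (Dvd.intro_left _ e.symm)
  have d4 : (∏ p ∈ P, p) ∣ num Q :=
    (num_coprime_prod P cP).symm.dvd_of_dvd_mul_left (Dvd.intro _ e.symm)
  exact ⟨Nat.dvd_antisymm d1 d3, Nat.dvd_antisymm d2 d4⟩

lemma cross (P Q : Finset ℕ) (hP : ∀ p ∈ P, 2 ≤ p) (hQ : ∀ q ∈ Q, 2 ≤ q)
    (cP : (P : Set ℕ).Pairwise Nat.Coprime) (cQ : (Q : Set ℕ).Pairwise Nat.Coprime)
    (h : (∑ p ∈ P, (1 / (p : ℚ))) * (∑ q ∈ Q, (1 / (q : ℚ))) = 1) :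
    ∀ p ∈ P, ∀ q ∈ Q, Nat.Coprime p q := by
  intro p hp q hq
  have h2 := (key P Q hP hQ cP cQ h).2
  have h3 := num_coprime Q cQ q hq
  rw [h2] at h3
  exact Nat.Coprime.coprime_dvd_left (Finset.dvd_prod_of_mem (fun b => b) hp) h3

/-- comparison of reciprocal sums -/
lemma compare (A T : Finset ℕ) (X : ℕ) (hX : 0 < X) (hA : ∀ a ∈ A, 0 < a ∧ a ≤ X)
    (hT : ∀ t ∈ T, t ∈ A ∨ X < t) (hc : T.card ≤ A.card) :
    ∑ t ∈ T, (1 / (t : ℚ)) ≤ ∑ a ∈ A, (1 / (a : ℚ)) := by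
  have hXq : (0 : ℚ) < X := by exact_mod_cast hX
  rw [← Finset.sum_inter_add_sum_sdiff T A, ← Finset.sum_inter_add_sum_sdiff A T,
    Finset.inter_comm A T]
  have h1 : ∑ t ∈ T \ A, (1 / (t : ℚ)) ≤ ∑ _t ∈ T \ A, (1 / (X : ℚ)) := by
    refine Finset.sum_le_sum fun t ht => ?_
    rw [Finset.mem_sdiff] at ht
    have : X < t := (hT t ht.1).resolve_left ht.2
    have : (X : ℚ) ≤ t := by exact_mod_cast this.le
    exact one_div_le_one_div_of_le hXq this
  have h2 : ∑ _t ∈ A \ T, (1 / (X : ℚ)) ≤ ∑ t ∈ A \ T, (1 / (t : ℚ)) := by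
    refine Finset.sum_le_sum fun t ht => ?_
    rw [Finset.mem_sdiff] at ht
    have h3 := hA t ht.1
    have h4 : (0 : ℚ) < t := by exact_mod_cast h3.1
    have h5 : (t : ℚ) ≤ X := by exact_mod_cast h3.2
    exact one_div_le_one_div_of_le h4 h5
  have h3 : (T \ A).card ≤ (A \ T).card := by
    have a1 := Finset.card_sdiff_add_card_inter T A
    have a2 := Finset.card_sdiff_add_card_inter A T
    rw [Finset.inter_comm A T] at a2
    omega
  have h4 : ∑ _t ∈ T \ A, (1 / (X : ℚ)) ≤ ∑ _t ∈ A \ T, (1 / (X : ℚ)) := by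
    rw [Finset.sum_const, Finset.sum_const, nsmul_eq_mul, nsmul_eq_mul]
    have : ((T \ A).card : ℚ) ≤ ((A \ T).card : ℚ) := by exact_mod_cast h3
    exact mul_le_mul_of_nonneg_right this (by positivity)
  linarith

/-- a pairwise coprime set of integers at least 2 whose least prime factors all lie in `A` or
exceed `X`, with at most `|A|` elements, has reciprocal sum at most that of `A` -/
lemma coprime_bound (A U : Finset ℕ) (X : ℕ) (hX : 0 < X) (hA : ∀ a ∈ A, 0 < a ∧ a ≤ X)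
    (hU : ∀ u ∈ U, 2 ≤ u) (cU : (U : Set ℕ).Pairwise Nat.Coprime)
    (hT : ∀ u ∈ U, u.minFac ∈ A ∨ X < u.minFac) (hc : U.card ≤ A.card) :
    ∑ t ∈ U, (1 / (t : ℚ)) ≤ ∑ a ∈ A, (1 / (a : ℚ)) := by
  have inj : Set.InjOn Nat.minFac (U : Set ℕ) := by
    intro a ha b hb hab
    by_contra hne
    have h1 := cU ha hb hne
    have h2 : a.minFac ∣ Nat.gcd a b :=
      Nat.dvd_gcd (Nat.minFac_dvd a) (hab ▸ Nat.minFac_dvd b)
    rw [Nat.Coprime] at h1
    rw [h1] at h2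
    have h3 : a.minFac.Prime := Nat.minFac_prime (by have := hU a ha; omega)
    exact h3.one_lt.ne' (Nat.dvd_one.1 h2)
  have h1 : ∑ t ∈ U, (1 / (t : ℚ)) ≤ ∑ t ∈ U, (1 / (t.minFac : ℚ)) := by
    refine Finset.sum_le_sum fun t ht => ?_
    have h0 := hU t ht
    have h3 : 0 < t.minFac := Nat.minFac_pos t
    have h4 : t.minFac ≤ t := Nat.minFac_le (by omega)
    have h5 : (0 : ℚ) < t.minFac := by exact_mod_cast h3
    have h6 : (t.minFac : ℚ) ≤ t := by exact_mod_cast h4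
    exact one_div_le_one_div_of_le h5 h6
  have h2 : ∑ t ∈ U, (1 / (t.minFac : ℚ)) = ∑ t ∈ U.image Nat.minFac, (1 / (t : ℚ)) := by
    rw [Finset.sum_image inj]
  rw [h2] at h1
  refine h1.trans (compare A _ X hX hA ?_ ?_)
  · intro t ht
    rw [Finset.mem_image] at ht
    obtain ⟨u, hu, rfl⟩ := ht
    exact hT u hu
  · rw [Finset.card_image_of_injOn inj]
    exact hc

/-- the 58 primes up to 271 -/
def A58 : Finset ℕ := (Finset.range 272).filter fun n =>
  2 ≤ n ∧ ∀ d ∈ Finset.range 17, 2 ≤ d → d < n → ¬ d ∣ n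

lemma A58_card : A58.card = 58 := by decide +kernel

lemma A58_sum : ∑ a ∈ A58, (1 / (a : ℚ)) < 2 := by decide +kernel

lemma A58_le : ∀ a ∈ A58, 0 < a ∧ a ≤ 271 := by
  intro a ha
  rw [A58, Finset.mem_filter, Finset.mem_range] at ha
  omega

lemma A58_prime (p : ℕ) (hp : p.Prime) : p ∈ A58 ∨ 271 < p := by
  by_cases h : 271 < p
  · exact Or.inr h
  · left
    rw [A58, Finset.mem_filter, Finset.mem_range]
    refine ⟨by omega, hp.two_le, fun d _ h2 h3 h4 => ?_⟩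
    rcases hp.eq_one_or_self_of_dvd d h4 with h5 | h5 <;> omega

/-- `108!` -/
def K : ℕ := 1324641819451828974499891837121832599810209360673358065686551152497461815091591578895743130235002378688844343005686404521144382704205360039762937774080000000000000000000000000

lemma K_eq : K = Nat.factorial 108 := by decide +kernel

/-- test used for the odd primes up to 11783 -/
def tst (n : ℕ) : Bool :=
  (n % 2 == 1) && (Nat.ble 3 n) && (if Nat.ble n 108 then
    decide (∀ d ∈ Finset.range 11, 2 ≤ d → d < n → ¬ d ∣ n) else Nat.gcd n K == 1)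

/-- the odd primes up to 11783 -/
def A1411 : Finset ℕ := (Finset.range 11784).filter fun n => tst n = true

lemma A1411_card : A1411.card = 1411 := by decide +kernel

lemma A1411_le : ∀ a ∈ A1411, 0 < a ∧ a ≤ 11783 := by
  intro a ha
  rw [A1411, Finset.mem_filter, Finset.mem_range, tst] at ha
  simp only [Bool.and_eq_true, Nat.ble_eq] at ha
  omega

set_option maxRecDepth 100000 in
lemma A1411_nat : ∑ a ∈ A1411, (1000000000 / a + 1) < 2000000000 := by decide +kernel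

lemma A1411_sum : ∑ a ∈ A1411, (1 / (a : ℚ)) < 2 := by
  have h1 : ∑ a ∈ A1411, (1 / (a : ℚ)) ≤
      ∑ a ∈ A1411, (((1000000000 / a + 1 : ℕ) : ℚ) / 1000000000) := by
    refine Finset.sum_le_sum fun a ha => ?_
    have h0 := (A1411_le a ha).1
    have h2 : (0 : ℚ) < a := by exact_mod_cast h0
    rw [div_le_div_iff₀ h2 (by norm_num)]
    have h3 : 1 * 1000000000 ≤ (1000000000 / a + 1) * a := by
      have := Nat.lt_div_mul_add (a := 1000000000) h0
      rw [add_mul, one_mul, one_mul]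
      omega
    exact_mod_cast h3
  rw [← Finset.sum_div, ← Nat.cast_sum] at h1
  have h2 : ((∑ a ∈ A1411, (1000000000 / a + 1) : ℕ) : ℚ) < 2000000000 := by
    exact_mod_cast A1411_nat
  have h3 : ((∑ a ∈ A1411, (1000000000 / a + 1) : ℕ) : ℚ) / 1000000000 < 2 := by
    rw [div_lt_iff₀ (by norm_num)]
    linarith
  linarith

lemma A1411_prime (p : ℕ) (hp : p.Prime) (ho : p ≠ 2) : p ∈ A1411 ∨ 11783 < p := by
  by_cases h : 11783 < p
  · exact Or.inr h
  · left
    rw [A1411, Finset.mem_filter, Finset.mem_range]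
    refine ⟨by omega, ?_⟩
    have h1 : p % 2 = 1 := (hp.eq_two_or_odd).resolve_left ho
    have h2 := hp.two_le
    rw [tst]
    simp only [Bool.and_eq_true, Nat.ble_eq, beq_iff_eq]
    refine ⟨⟨h1, by omega⟩, ?_⟩
    split_ifs with h3
    · rw [decide_eq_true_iff]
      intro d _ h2 h3 h4
      rcases hp.eq_one_or_self_of_dvd d h4 with h5 | h5 <;> omega
    · rw [beq_iff_eq, K_eq]
      refine (Nat.Prime.coprime_iff_not_dvd hp).2 fun h4 => ?_
      exact h3 ((Nat.Prime.dvd_factorial hp).1 h4)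

lemma sum_ge_two (s t : ℚ) (h : s * t = 1) (hs : 0 ≤ s) (ht : 0 ≤ t) : 2 ≤ s + t := by
  by_contra hlt
  push Not at hlt
  nlinarith [sq_nonneg (s - t), sq_nonneg (s + t)]

/-- the primes up to `X` other than `r` (correct for `X ≤ 1452`) -/
def Apr (r X : ℕ) : Finset ℕ := (Finset.range (X + 1)).filter fun n =>
  n ≠ r ∧ 2 ≤ n ∧ ∀ d ∈ Finset.range 39, 2 ≤ d → d < n → ¬ d ∣ n

lemma Apr_prime (r X p : ℕ) (hp : p.Prime) (h : p ≠ r) : p ∈ Apr r X ∨ X < p := by
  by_cases h' : X < p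
  · exact Or.inr h'
  · left
    rw [Apr, Finset.mem_filter, Finset.mem_range]
    refine ⟨by omega, h, hp.two_le, fun d _ h2 h3 h4 => ?_⟩
    rcases hp.eq_one_or_self_of_dvd d h4 with h5 | h5 <;> omega

lemma nat_sum (A : Finset ℕ) (hA : ∀ a ∈ A, 0 < a) :
    ∑ a ∈ A, (1 / (a : ℚ)) ≤ ((∑ a ∈ A, (1000000000 / a + 1) : ℕ) : ℚ) / 1000000000 := by
  rw [Nat.cast_sum, Finset.sum_div]
  refine Finset.sum_le_sum fun a ha => ?_
  have h0 := hA a ha
  have h2 : (0 : ℚ) < a := by exact_mod_cast h0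
  rw [div_le_div_iff₀ h2 (by norm_num)]
  have h3 : 1 * 1000000000 ≤ (1000000000 / a + 1) * a := by
    have := Nat.lt_div_mul_add (a := 1000000000) h0
    rw [add_mul, one_mul, one_mul]
    omega
  exact_mod_cast h3

lemma forced (r X c : ℕ) (U : Finset ℕ) (hX : 0 < X) (hcard : (Apr r X).card = c)
    (hs : ∑ a ∈ Apr r X, (1000000000 / a + 1) + 1000000000 / r ^ 2 + 1 < 2000000000)
    (hU : ∀ u ∈ U, 2 ≤ u) (cU : (U : Set ℕ).Pairwise Nat.Coprime) (hr : 0 < r)
    (hsum : 2 ≤ ∑ u ∈ U, (1 / (u : ℚ))) : r ∈ U ∨ c + 1 ≤ U.card := by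
  by_contra hcon
  push Not at hcon
  obtain ⟨hrU, hcU⟩ := hcon
  have e1 := Finset.sum_filter_add_sum_filter_not U (fun u => u.minFac = r)
    (fun u => 1 / (u : ℚ))
  have hA : ∀ a ∈ Apr r X, 0 < a ∧ a ≤ X := by
    intro a ha
    rw [Apr, Finset.mem_filter, Finset.mem_range] at ha
    omega
  have b1 : ∑ u ∈ U.filter (fun u => ¬ u.minFac = r), (1 / (u : ℚ)) ≤
      ∑ a ∈ Apr r X, (1 / (a : ℚ)) := by
    refine coprime_bound (Apr r X) _ X hX hA (fun u hu => hU u (Finset.mem_of_mem_filter u hu))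
      ?_ ?_ ?_
    · exact cU.mono (by exact_mod_cast Finset.filter_subset _ U)
    · intro u hu
      rw [Finset.mem_filter] at hu
      exact Apr_prime r X _ (Nat.minFac_prime (by have := hU u hu.1; omega)) hu.2
    · rw [hcard]
      exact (Finset.card_filter_le _ _).trans (by omega)
  have b2 : ∑ u ∈ U.filter (fun u => u.minFac = r), (1 / (u : ℚ)) ≤ 1 / (r : ℚ) ^ 2 := by
    have hc1 : (U.filter (fun u => u.minFac = r)).card ≤ 1 := by
      rw [Finset.card_le_one]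
      intro a ha b hb
      rw [Finset.mem_filter] at ha hb
      by_contra hne
      have h1 := cU ha.1 hb.1 hne
      have h2 : r ∣ Nat.gcd a b :=
        Nat.dvd_gcd (ha.2 ▸ Nat.minFac_dvd a) (hb.2 ▸ Nat.minFac_dvd b)
      rw [h1] at h2
      have h3 : a.minFac.Prime := Nat.minFac_prime (by have := hU a ha.1; omega)
      rw [ha.2] at h3
      exact h3.one_lt.ne' (Nat.dvd_one.1 h2)
    have hrq : (0 : ℚ) < (r : ℚ) ^ 2 := by positivity
    have h4 : ∑ u ∈ U.filter (fun u => u.minFac = r), (1 / (u : ℚ)) ≤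
        (U.filter (fun u => u.minFac = r)).card • (1 / (r : ℚ) ^ 2) := by
      refine Finset.sum_le_card_nsmul _ _ _ fun u hu => ?_
      rw [Finset.mem_filter] at hu
      have h5 : ¬ u.Prime := by
        intro h6
        rw [h6.minFac_eq] at hu
        exact hrU (hu.2 ▸ hu.1)
      have h6 := Nat.minFac_sq_le_self (by have := hU u hu.1; omega) h5
      rw [hu.2] at h6
      have h7 : (r : ℚ) ^ 2 ≤ u := by exact_mod_cast h6
      exact one_div_le_one_div_of_le hrq h7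
    rw [nsmul_eq_mul] at h4
    have h8 : (((U.filter (fun u => u.minFac = r)).card : ℕ) : ℚ) ≤ 1 := by exact_mod_cast hc1
    have h9 : (0 : ℚ) ≤ 1 / (r : ℚ) ^ 2 := by positivity
    nlinarith
  have b3 := nat_sum (Apr r X) (fun a ha => (hA a ha).1)
  have b4 : (1 / (r : ℚ) ^ 2) ≤ ((1000000000 / r ^ 2 + 1 : ℕ) : ℚ) / 1000000000 := by
    have hrq : (0 : ℚ) < (r : ℚ) ^ 2 := by positivity
    rw [div_le_div_iff₀ hrq (by norm_num)]
    have h3 : 1 * 1000000000 ≤ (1000000000 / r ^ 2 + 1) * r ^ 2 := by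
      have h0 : 0 < r ^ 2 := by positivity
      have := Nat.lt_div_mul_add (a := 1000000000) h0
      rw [add_mul, one_mul, one_mul]
      omega
    exact_mod_cast h3
  have b5 : ((∑ a ∈ Apr r X, (1000000000 / a + 1) : ℕ) : ℚ) / 1000000000 +
      ((1000000000 / r ^ 2 + 1 : ℕ) : ℚ) / 1000000000 < 2 := by
    rw [← add_div, div_lt_iff₀ (by norm_num), ← Nat.cast_add]
    have : ((∑ a ∈ Apr r X, (1000000000 / a + 1) + (1000000000 / r ^ 2 + 1) : ℕ) : ℚ) <
        2000000000 := by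
      have : ∑ a ∈ Apr r X, (1000000000 / a + 1) + (1000000000 / r ^ 2 + 1) < 2000000000 := by
        omega
      exact_mod_cast this
    linarith
  linarith

set_option maxRecDepth 100000 in
lemma c2 : (Apr 2 1451).card = 229 ∧
    ∑ a ∈ Apr 2 1451, (1000000000 / a + 1) + 1000000000 / 2 ^ 2 + 1 < 2000000000 := by
  decide +kernel

set_option maxRecDepth 100000 in
lemma c3 : (Apr 3 1186).card = 193 ∧
    ∑ a ∈ Apr 3 1186, (1000000000 / a + 1) + 1000000000 / 3 ^ 2 + 1 < 2000000000 := by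
  decide +kernel

lemma c5 : (Apr 5 760).card = 133 ∧
    ∑ a ∈ Apr 5 760, (1000000000 / a + 1) + 1000000000 / 5 ^ 2 + 1 < 2000000000 := by
  decide +kernel

lemma c7 : (Apr 7 600).card = 108 ∧
    ∑ a ∈ Apr 7 600, (1000000000 / a + 1) + 1000000000 / 7 ^ 2 + 1 < 2000000000 := by
  decide +kernel

lemma c11 : (Apr 11 460).card = 87 ∧
    ∑ a ∈ Apr 11 460, (1000000000 / a + 1) + 1000000000 / 11 ^ 2 + 1 < 2000000000 := by
  decide +kernel

lemma c13 : (Apr 13 432).card = 82 ∧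
    ∑ a ∈ Apr 13 432, (1000000000 / a + 1) + 1000000000 / 13 ^ 2 + 1 < 2000000000 := by
  decide +kernel

/-- parity of the numerator for a set of odd numbers -/
lemma num_parity (A : Finset ℕ) (ho : ∀ a ∈ A, Odd a) : (Odd (num A) ↔ Odd A.card) := by
  unfold num
  have h1 : ∀ a ∈ A, Odd (∏ b ∈ A.erase a, b) := fun a _ =>
    Finset.prod_induction _ Odd (fun _ _ => Odd.mul) odd_one
      fun b hb => ho b (Finset.mem_of_mem_erase hb)
  have h2 := Finset.odd_sum_iff_odd_card_odd (s := A) (f := fun a => ∏ b ∈ A.erase a, b)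
  rw [h2]
  have : (A.filter fun x => Odd (∏ b ∈ A.erase x, b)) = A := Finset.filter_true_of_mem h1
  rw [this]

lemma prod_odd (A : Finset ℕ) (ho : ∀ a ∈ A, Odd a) : Odd (∏ b ∈ A, b) :=
  Finset.prod_induction _ Odd (fun _ _ => Odd.mul) odd_one fun b hb => ho b hb

theorem result (P Q : Finset ℕ) (hP : ∀ p ∈ P, 2 ≤ p) (hQ : ∀ q ∈ Q, 2 ≤ q)
    (cP : (P : Set ℕ).Pairwise Nat.Coprime) (cQ : (Q : Set ℕ).Pairwise Nat.Coprime)
    (h : (∑ p ∈ P, (1 / (p : ℚ))) * (∑ q ∈ Q, (1 / (q : ℚ))) = 1) :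
    (∀ p ∈ P, ∀ q ∈ Q, Nat.Coprime p q) ∧
    (∏ q ∈ Q, q = ∑ a ∈ P, ∏ b ∈ P.erase a, b) ∧ (∏ p ∈ P, p = ∑ a ∈ Q, ∏ b ∈ Q.erase a, b) ∧
    59 ≤ P.card + Q.card ∧
    (2 ∈ P ∪ Q ∨ 230 ≤ P.card + Q.card) ∧ (3 ∈ P ∪ Q ∨ 194 ≤ P.card + Q.card) ∧
    (5 ∈ P ∪ Q ∨ 134 ≤ P.card + Q.card) ∧ (7 ∈ P ∪ Q ∨ 109 ≤ P.card + Q.card) ∧
    (11 ∈ P ∪ Q ∨ 88 ≤ P.card + Q.card) ∧ (13 ∈ P ∪ Q ∨ 83 ≤ P.card + Q.card) ∧
    ((∀ p ∈ P, Odd p) → (∀ q ∈ Q, Odd q) →
      1412 ≤ P.card + Q.card ∧ Odd P.card ∧ Odd Q.card) ∧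
    ((∃ p ∈ P, Even p) → Even Q.card) ∧ ((∃ q ∈ Q, Even q) → Even P.card) := by
  have hc := cross P Q hP hQ cP cQ h
  have hk := key P Q hP hQ cP cQ h
  have hdis : Disjoint P Q := by
    rw [Finset.disjoint_left]
    intro a ha hb
    have h1 := hc a ha a hb
    rw [Nat.coprime_self] at h1
    have := hP a ha
    omega
  have hU : ∀ u ∈ P ∪ Q, 2 ≤ u := fun u hu => by
    rcases Finset.mem_union.1 hu with h1 | h1
    · exact hP u h1
    · exact hQ u h1
  have cU : ((P ∪ Q : Finset ℕ) : Set ℕ).Pairwise Nat.Coprime := by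
    intro a ha b hb hab
    rw [Finset.mem_coe, Finset.mem_union] at ha hb
    rcases ha with ha | ha <;> rcases hb with hb | hb
    · exact cP ha hb hab
    · exact hc a ha b hb
    · exact (hc b hb a ha).symm
    · exact cQ ha hb hab
  have hcard : (P ∪ Q).card = P.card + Q.card := Finset.card_union_of_disjoint hdis
  have hsum : 2 ≤ ∑ u ∈ P ∪ Q, (1 / (u : ℚ)) := by
    rw [Finset.sum_union hdis]
    exact sum_ge_two _ _ h (Finset.sum_nonneg fun _ _ => by positivity)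
      (Finset.sum_nonneg fun _ _ => by positivity)
  have f2 := forced 2 1451 229 (P ∪ Q) (by norm_num) c2.1 c2.2 hU cU (by norm_num) hsum
  have f3 := forced 3 1186 193 (P ∪ Q) (by norm_num) c3.1 c3.2 hU cU (by norm_num) hsum
  have f5 := forced 5 760 133 (P ∪ Q) (by norm_num) c5.1 c5.2 hU cU (by norm_num) hsum
  have f7 := forced 7 600 108 (P ∪ Q) (by norm_num) c7.1 c7.2 hU cU (by norm_num) hsum
  have f11 := forced 11 460 87 (P ∪ Q) (by norm_num) c11.1 c11.2 hU cU (by norm_num) hsum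
  have f13 := forced 13 432 82 (P ∪ Q) (by norm_num) c13.1 c13.2 hU cU (by norm_num) hsum
  rw [hcard] at f2 f3 f5 f7 f11 f13
  refine ⟨hc, hk.1.symm, hk.2.symm, ?_, f2, f3, f5, f7, f11, f13, ?_, ?_, ?_⟩
  · by_contra hlt
    have h1 : (P ∪ Q).card ≤ A58.card := by rw [hcard, A58_card]; omega
    have h2 := coprime_bound A58 (P ∪ Q) 271 (by norm_num) A58_le hU cU
      (fun u hu => A58_prime _ (Nat.minFac_prime (by have := hU u hu; omega))) h1
    have h3 := A58_sum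
    linarith
  · intro oP oQ
    refine ⟨?_, ?_, ?_⟩
    · by_contra hlt
      have h1 : (P ∪ Q).card ≤ A1411.card := by rw [hcard, A1411_card]; omega
      have h2 := coprime_bound A1411 (P ∪ Q) 11783 (by norm_num) A1411_le hU cU
        (fun u hu => A1411_prime _ (Nat.minFac_prime (by have := hU u hu; omega)) (by
          intro h2
          have h3 : 2 ∣ u := by rw [← h2]; exact Nat.minFac_dvd u
          have h4 : Odd u := by
            rcases Finset.mem_union.1 hu with h1 | h1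
            · exact oP u h1
            · exact oQ u h1
          have h5 := Nat.odd_iff.1 h4
          omega)) h1
      have h3 := A1411_sum
      linarith
    · rw [← num_parity P oP, hk.1]
      exact prod_odd Q oQ
    · rw [← num_parity Q oQ, hk.2]
      exact prod_odd P oP
  · rintro ⟨p, hp, he⟩
    have oQ : ∀ q ∈ Q, Odd q := fun q hq => by
      have h1 := hc p hp q hq
      rw [← Nat.not_even_iff_odd]
      intro h2
      have h3 : 2 ∣ Nat.gcd p q := Nat.dvd_gcd he.two_dvd h2.two_dvd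
      rw [h1] at h3
      omega
    have h1 := num_parity Q oQ
    rw [← Nat.not_odd_iff_even, ← h1, hk.2, Nat.not_odd_iff_even]
    exact (he.two_dvd.trans (Finset.dvd_prod_of_mem (fun b => b) hp)).elim fun c hc' => ⟨c, by
      rw [hc']; ring⟩
  · rintro ⟨q, hq, he⟩
    have oP : ∀ p ∈ P, Odd p := fun p hp => by
      have h1 := hc p hp q hq
      rw [← Nat.not_even_iff_odd]
      intro h2
      have h3 : 2 ∣ Nat.gcd p q := Nat.dvd_gcd h2.two_dvd he.two_dvd
      rw [h1] at h3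
      omega
    have h1 := num_parity P oP
    rw [← Nat.not_odd_iff_even, ← h1, hk.1, Nat.not_odd_iff_even]
    exact (he.two_dvd.trans (Finset.dvd_prod_of_mem (fun b => b) hq)).elim fun c hc' => ⟨c, by
      rw [hc']; ring⟩

end Pool.Agent.Results.MP_950c07_nt.AtLeast59
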